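import Pool.Agent.W254.Ab.Gen

/-!
# Multiples by rational functions of arbitrary numbers
-/

set_option autoImplicit false

namespace Pool.Agent.W254.Ab

open Module Finset MvPolynomial
open Pool.Agent.W254.PA (Hyp)

theorem exists_functional {K V : Type*} [Field K] [AddCommGroup V] [Module K V]
    (U : Submodule K V) (x : V) (hx : x ∉ U) : ∃ φ : V →ₗ[K] K, φ x ≠ 0 ∧ ∀ u ∈ U, φ u = 0 := by
  obtain ⟨φ, h1, h2⟩ := Submodule.exists_dual_map_eq_bot_of_notMem hx inferInstance
  refine ⟨φ, h1, fun u hu => ?_⟩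
  have h3 : φ u ∈ U.map φ := Submodule.mem_map_of_mem hu
  rw [h2] at h3
  simpa using h3

variable {Ω : Type*} [Field Ω] [CharZero Ω] {V : Submodule (QA Ω) Ω}
  (hV : Hyp V)

theorem aeval_mem_boxV {n : ℕ} (t : Fin n → Ω) (D : ℕ) (P : MvPolynomial (Fin n) (QA Ω))
    (hP : ∀ m ∈ P.support, ∀ i, m i ≤ D) : aeval t P ∈ boxV t (D + 1) := by
  rw [aeval_def, eval₂_eq]
  apply Submodule.sum_mem
  intro m hm
  have h5 := (boxV t (D + 1)).smul_mem (coeff m P)
    (mon_mem t (D + 1) (fun i => m i) (fun i => Nat.lt_succ_of_le (hP m hm i)))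
  rw [Algebra.smul_def] at h5
  have h6 : ∏ i, t i ^ m i = ∏ i ∈ m.support, t i ^ m i := by
    symm
    apply Finset.prod_subset (Finset.subset_univ _)
    intro i _ hi
    rw [Finsupp.notMem_support_iff.mp hi, pow_zero]
  rw [h6] at h5
  exact h5

/-- the arithmetic -/

theorem gen_arith {n : ℕ} (t : Fin n → Ω) (D r : ℕ) (hD : 1 ≤ D)
    (h : r * finrank (QA Ω) (boxV t D) ≤
      finrank (QA Ω) (boxV t (2 * D)) * (finrank (QA Ω) (boxV t (2 * D)) - 1)) :
    r ≤ (4 * D) ^ n - 2 ^ n := by
  have hb := finrank_boxV_pos t hD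
  have h4 := finrank_boxV_le t (2 * D)
  have h5 := boxV_double t D
  set c := finrank (QA Ω) (boxV t (2 * D)) with hc
  set b := finrank (QA Ω) (boxV t D) with hb'
  have h6 : c * (c - 1) ≤ (2 ^ n * b) * ((2 * D) ^ n - 1) :=
    Nat.mul_le_mul h5 (Nat.sub_le_sub_right h4 1)
  have h7 : r * b ≤ (2 ^ n * ((2 * D) ^ n - 1)) * b := by
    calc r * b ≤ c * (c - 1) := h
      _ ≤ (2 ^ n * b) * ((2 * D) ^ n - 1) := h6
      _ = _ := by ring
  have h8 := Nat.le_of_mul_le_mul_right h7 hb
  have h9 : 2 ^ n * ((2 * D) ^ n - 1) = (4 * D) ^ n - 2 ^ n := by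
    rw [Nat.mul_sub, mul_one, ← mul_pow]
    congr 2
    ring
  rwa [h9] at h8

include hV in
theorem four_core' {n : ℕ} (t : Fin n → Ω) (D : ℕ) (hD : 1 ≤ D)
    {m : ℕ} (y z : Fin m → V) (hyi : LinearIndependent (QA Ω) y)
    (A B : Fin m → MvPolynomial (Fin n) (QA Ω)) (hA : ∀ i, ∀ d ∈ (A i).support, ∀ j, d j ≤ D)
    (hB : ∀ i, ∀ d ∈ (B i).support, ∀ j, d j ≤ D) (hB0 : ∀ i, aeval t (B i) ≠ 0)
    (hAB : ∀ i (c : (QA Ω)), aeval t (A i) ≠ (c : Ω) * aeval t (B i))
    (hrel : ∀ i, aeval t (A i) * (y i : Ω) = aeval t (B i) * (z i : Ω)) :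
    m ≤ 2 * ((4 * D) ^ n - 2 ^ n) := by
  classical
  let b := Module.Basis.ofVectorSpace (QA Ω) V
  set κ := Module.Basis.ofVectorSpaceIndex (QA Ω) V with hκ
  let w : κ → Ω := fun s => (b s : Ω)
  have hw : LinearIndependent (QA Ω) w := b.linearIndependent.map' V.subtype V.ker_subtype
  let emb : (κ →₀ (QA Ω)) →ₗ[(QA Ω)] (κ →₀ Ω) := Finsupp.mapRange.linearMap (Algebra.linearMap (QA Ω) Ω)
  have hemb : ∀ v s, emb v s = ((v s : (QA Ω)) : Ω) := fun v s => rfl
  have hlc : ∀ (g : κ → Ω) (v : κ →₀ (QA Ω)), Finsupp.linearCombination Ω g (emb v) =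
      v.sum (fun s c => (c : Ω) * g s) := by
    intro g v
    rw [Finsupp.linearCombination_apply]
    change (Finsupp.mapRange (Algebra.linearMap (QA Ω) Ω) (map_zero _) v).sum _ = _
    rw [Finsupp.sum_mapRange_index (by intro i; rw [zero_smul])]
    rfl
  have hwr : ∀ v : V, Finsupp.linearCombination Ω w (emb (b.repr v)) = (v : Ω) := by
    intro v
    rw [hlc]
    have h1 := b.linearCombination_repr v
    have h2 := congrArg (fun x : V => (x : Ω)) h1
    change ((Finsupp.linearCombination (QA Ω) b (b.repr v) : V) : Ω) = (v : Ω) at h2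
    rw [← h2, Finsupp.linearCombination_apply, Finsupp.sum, Finsupp.sum, Submodule.coe_sum]
    apply Finset.sum_congr rfl
    intro s _
    rw [Submodule.coe_smul, Algebra.smul_def]
    rfl
  let F : Fin m → (κ →₀ Ω) := fun i =>
    (aeval t (A i)) • emb (b.repr (y i)) - (aeval t (B i)) • emb (b.repr (z i))
  haveI : Module.Finite Ω (Submodule.span Ω (Set.range F)) :=
    FiniteDimensional.span_of_finite Ω (Set.finite_range F)
  obtain ⟨r, f, hfmem, hfspan, hfi⟩ : ∃ (r : ℕ) (f : Fin r → (κ →₀ Ω)),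
      (∀ i, f i ∈ Set.range F) ∧ Submodule.span Ω (Set.range f) = Submodule.span Ω (Set.range F) ∧
      LinearIndependent Ω f := ⟨_, Submodule.exists_fun_fin_finrank_span_eq Ω (Set.range F)⟩
  choose J hJ using hfmem
  have hAm : ∀ i, aeval t (A i) ∈ boxV t (D + 1) := fun i => aeval_mem_boxV t D _ (hA i)
  have hBm : ∀ i, aeval t (B i) ∈ boxV t (D + 1) := fun i => aeval_mem_boxV t D _ (hB i)
  -- the rank of the relations
  have hr1 : r ≤ (4 * D) ^ n - 2 ^ n := by
    have h1 := rel_core hV w hw (fun s => (b s).2) (boxV t (D + 1)) (boxV t D) (boxV t (2 * D))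
      (box_mul t D (D + 1) (2 * D) (by omega)) r f hfi ?_ ?_
    · exact gen_arith t D r hD h1
    · intro i s
      rw [← hJ i]
      change aeval t (A (J i)) * _ - aeval t (B (J i)) * _ ∈ _
      apply Submodule.sub_mem
      · have := (boxV t (D + 1)).smul_mem (b.repr (y (J i)) s) (hAm (J i))
        rw [Algebra.smul_def] at this
        rw [mul_comm]
        exact this
      · have := (boxV t (D + 1)).smul_mem (b.repr (z (J i)) s) (hBm (J i))
        rw [Algebra.smul_def] at this
        rw [mul_comm]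
        exact this
    · intro i
      have h2 : (f i).sum (fun s c => c * w s) = Finsupp.linearCombination Ω w (f i) := by
        rw [Finsupp.linearCombination_apply]; rfl
      rw [h2, ← hJ i]
      change Finsupp.linearCombination Ω w (_ • emb (b.repr (y (J i))) -
        _ • emb (b.repr (z (J i)))) = 0
      rw [map_sub, map_smul, map_smul, hwr, hwr, smul_eq_mul, smul_eq_mul, hrel, sub_self]
  -- the span
  let U : Submodule (QA Ω) V := Submodule.span (QA Ω) (Set.range (Sum.elim (y ∘ J) (z ∘ J)))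
  haveI : FiniteDimensional (QA Ω) U := FiniteDimensional.span_of_finite (QA Ω) (Set.finite_range _)
  have hU : finrank (QA Ω) U ≤ 2 * r := by
    refine (finrank_range_le_card _).trans ?_
    rw [Fintype.card_sum, Fintype.card_fin]
    omega
  have hyU : ∀ i, y i ∈ U := by
    intro i
    by_contra hi
    obtain ⟨φ, hφ1, hφU⟩ := exists_functional U (y i) hi
    let Φ : (κ →₀ Ω) →ₗ[Ω] Ω := Finsupp.linearCombination Ω (fun s => ((φ (b s) : (QA Ω)) : Ω))
    have hΦ : ∀ v : V, Φ (emb (b.repr v)) = ((φ v : (QA Ω)) : Ω) := by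
      intro v
      change Finsupp.linearCombination Ω _ _ = _
      rw [hlc]
      have h1 := congrArg φ (b.linearCombination_repr v)
      rw [← h1, Finsupp.linearCombination_apply, Finsupp.sum, Finsupp.sum, map_sum]
      push_cast
      apply Finset.sum_congr rfl
      intro s _
      rw [map_smul, smul_eq_mul]
      push_cast
      rfl
    have hΦF : ∀ i, Φ (F i) = aeval t (A i) * ((φ (y i) : (QA Ω)) : Ω) -
        aeval t (B i) * ((φ (z i) : (QA Ω)) : Ω) := by
      intro i
      change Φ (_ • emb (b.repr (y i)) - _ • emb (b.repr (z i))) = _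
      rw [map_sub, map_smul, map_smul, hΦ, hΦ, smul_eq_mul, smul_eq_mul]
    have h0 : ∀ g ∈ Submodule.span Ω (Set.range F), Φ g = 0 := by
      intro g hg
      rw [← hfspan] at hg
      refine Submodule.span_induction (p := fun g _ => Φ g = 0) ?_ ?_ ?_ ?_ hg
      · rintro _ ⟨j, rfl⟩
        rw [← hJ j, hΦF, hφU (y (J j)) (Submodule.subset_span ⟨Sum.inl j, rfl⟩),
          hφU (z (J j)) (Submodule.subset_span ⟨Sum.inr j, rfl⟩)]
        simp
      · simp
      · intro a b _ _ ha hb
        rw [map_add, ha, hb, add_zero]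
      · intro c a _ ha
        rw [map_smul, ha, smul_zero]
    have h1 := h0 (F i) (Submodule.subset_span ⟨i, rfl⟩)
    rw [hΦF] at h1
    apply hAB i (φ (z i) / φ (y i))
    have h3 : ((φ (y i) : (QA Ω)) : Ω) ≠ 0 := fun h => hφ1 (Subtype.ext h)
    push_cast
    rw [div_mul_eq_mul_div, eq_div_iff h3]
    linear_combination h1
  -- the count
  have h1 : m ≤ finrank (QA Ω) U := by
    have h2 : LinearIndependent (QA Ω) (fun i => (⟨y i, hyU i⟩ : U)) := by
      apply LinearIndependent.of_comp U.subtype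
      exact hyi
    have := h2.fintype_card_le_finrank
    rwa [Fintype.card_fin] at this
  omega


include hV in
theorem four_gen {n : ℕ} (t : Fin n → Ω) (D : ℕ)
    {ι : Type} (y : ι → Ω) (hy : ∀ i, y i ∈ V) (hyi : LinearIndependent (QA Ω) y) :
    ∃ E : Finset ι, E.card ≤ 2 * ((4 * D) ^ n - 2 ^ n) ∧ ∀ i, i ∉ E →
      ∀ A B : MvPolynomial (Fin n) (QA Ω), (∀ d ∈ A.support, ∀ j, d j ≤ D) →
        (∀ d ∈ B.support, ∀ j, d j ≤ D) → aeval t B ≠ 0 →
        Transcendental ℚ (aeval t A / aeval t B) → aeval t A / aeval t B * y i ∉ V := by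
  classical
  let Bad : Set ι := {i | ∃ A B : MvPolynomial (Fin n) (QA Ω), (∀ d ∈ A.support, ∀ j, d j ≤ D) ∧
        (∀ d ∈ B.support, ∀ j, d j ≤ D) ∧ aeval t B ≠ 0 ∧
        Transcendental ℚ (aeval t A / aeval t B) ∧ aeval t A / aeval t B * y i ∈ V}
  have hbd : ∀ s : Finset ι, (∀ i ∈ s, i ∈ Bad) → s.card ≤ 2 * ((4 * D) ^ n - 2 ^ n) := by
    intro s hs
    rcases Nat.eq_zero_or_pos D with hD0 | hD
    · -- no bad indices
      have : s = ∅ := by
        rw [Finset.eq_empty_iff_forall_notMem]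
        intro i hi
        obtain ⟨A, B, hA, hB, hB0, hAB, _⟩ := hs i hi
        subst hD0
        have hc : ∀ P : MvPolynomial (Fin n) (QA Ω), (∀ d ∈ P.support, ∀ j, d j ≤ 0) →
            P = C (coeff 0 P) := by
          intro P hP
          ext m
          rw [coeff_C]
          split_ifs with h
          · rw [h]
          · by_contra h0
            apply h
            have := hP m (MvPolynomial.mem_support_iff.mpr (fun h1 => h0 (by rw [h1])))
            ext j
            rw [Finsupp.zero_apply]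
            have := this j
            omega
        apply hAB
        rw [hc A hA, hc B hB, aeval_C, aeval_C]
        rw [div_eq_mul_inv]
        exact (mem_QA.mp (coeff 0 A).2).mul (mem_QA.mp (coeff 0 B).2).inv
      rw [this, Finset.card_empty]
      exact Nat.zero_le _
    · let e := s.equivFin
      have hs' : ∀ i : Fin s.card, ∃ A B : MvPolynomial (Fin n) (QA Ω),
          (∀ d ∈ A.support, ∀ j, d j ≤ D) ∧
          (∀ d ∈ B.support, ∀ j, d j ≤ D) ∧ aeval t B ≠ 0 ∧
          Transcendental ℚ (aeval t A / aeval t B) ∧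
          aeval t A / aeval t B * y (e.symm i) ∈ V := fun i => hs _ (e.symm i).2
      choose A B hA hB hB0 hAB hz using hs'
      refine four_core' hV t D hD (fun i => ⟨y (e.symm i), hy _⟩)
        (fun i => ⟨aeval t (A i) / aeval t (B i) * y (e.symm i), hz i⟩) ?_ A B hA hB hB0 ?_ ?_
      · apply LinearIndependent.of_comp V.subtype
        exact hyi.comp (fun i : Fin s.card => ((e.symm i : s) : ι))
          (Subtype.val_injective.comp e.symm.injective)
      · intro i c hc
        apply hAB i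
        rw [hc, mul_div_assoc, div_self (hB0 i), mul_one]
        exact mem_QA.mp c.2
      · intro i
        change aeval t (A i) * y (e.symm i) =
          aeval t (B i) * (aeval t (A i) / aeval t (B i) * y (e.symm i))
        field_simp [hB0 i]
  have hfin : Bad.Finite := by
    by_contra hinf
    obtain ⟨s, hs, hcard⟩ := Set.Infinite.exists_subset_card_eq (s := Bad) hinf
      (2 * ((4 * D) ^ n - 2 ^ n) + 1)
    have := hbd s (fun i hi => hs hi)
    omega
  refine ⟨hfin.toFinset, hbd _ (fun i hi => hfin.mem_toFinset.mp hi), ?_⟩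
  intro i hi A B hA hB hB0 hAB hmem
  exact hi (hfin.mem_toFinset.mpr ⟨A, B, hA, hB, hB0, hAB, hmem⟩)

end Pool.Agent.W254.Ab
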