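import Pool.Agent.W254.Ab.Opt

/-!
# More on linear relations
-/

set_option autoImplicit false

namespace Pool.Agent.W254.Ab

open Module Finset MvPolynomial
open Pool.Agent.W254.PA (Hyp)

variable {Ω : Type*} [Field Ω] [CharZero Ω] {V : Submodule (QA Ω) Ω}
  (hV : Hyp V)

include hV in
/-- relations with coefficients in `C`, linearly independent over the algebraic numbers -/
theorem rel_core0 {ι κ : Type*} [Fintype κ] (w : ι → Ω) (hw : LinearIndependent (QA Ω) w)
    (hL : ∀ i, w i ∈ V) (C : Submodule (QA Ω) Ω) [FiniteDimensional (QA Ω) C]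
    (f : κ → (ι →₀ Ω)) (hf : LinearIndependent (QA Ω) f) (hfC : ∀ i s, f i s ∈ C)
    (hf0 : ∀ i, (f i).sum (fun s c => c * w s) = 0) :
    Fintype.card κ ≤ finrank (QA Ω) C * (finrank (QA Ω) C - 1) := by
  classical
  let F : Finset ι := Finset.univ.biUnion (fun i => (f i).support)
  have hF : ∀ i, (f i).support ⊆ F := fun i =>
    Finset.subset_biUnion_of_mem (fun i => (f i).support) (Finset.mem_univ i)
  let bC := Module.finBasis (QA Ω) C
  let γ : κ → ι → Fin (finrank (QA Ω) C) → (QA Ω) := fun i s u => bC.repr ⟨f i s, hfC _ _⟩ u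
  have hγ : ∀ i s, ∑ u, ((γ i s u : (QA Ω)) : Ω) * ((bC u : C) : Ω) = f i s := by
    intro i s
    have h1 := bC.sum_repr ⟨f i s, hfC _ _⟩
    have h2 := congrArg (fun z : C => (z : Ω)) h1
    simp only [Submodule.coe_sum, Submodule.coe_smul] at h2
    refine Eq.trans ?_ h2
    apply Finset.sum_congr rfl
    intro u _
    rw [Algebra.smul_def]
    rfl
  have hx : LinearIndependent (QA Ω) (fun u => ((bC u : C) : Ω)) :=
    bC.linearIndependent.map' C.subtype C.ker_subtype
  refine hyperplane' hV (κ := κ) (finrank (QA Ω) C)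
    (fun u => ((bC u : C) : Ω)) (fun u i => ∑ s ∈ F, ((γ i s u : (QA Ω)) : Ω) * w s) hx ?_ ?_ ?_
  · intro u i
    apply Submodule.sum_mem
    intro s _
    have := V.smul_mem (γ i s u) (hL s)
    rwa [Algebra.smul_def] at this
  · intro i
    have h1 : ∑ u, ((bC u : C) : Ω) * ∑ s ∈ F, ((γ i s u : (QA Ω)) : Ω) * w s =
        ∑ s ∈ F, f i s * w s := by
      simp only [Finset.mul_sum]
      rw [Finset.sum_comm]
      apply Finset.sum_congr rfl
      intro s _
      rw [← hγ i s, Finset.sum_mul]
      apply Finset.sum_congr rfl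
      intro u _
      ring
    rw [h1]
    have h2 := hf0 i
    rw [Finsupp.sum_of_support_subset _ (hF i) _ (by intro i _; ring)] at h2
    exact h2
  · rw [Fintype.linearIndependent_iff]
    intro β hβ
    have h1 : ∀ u, ∀ s ∈ F, ∑ i, β i * γ i s u = 0 := by
      intro u
      have h2 := congrFun hβ u
      rw [Finset.sum_apply, Pi.zero_apply] at h2
      have h3 : ∑ s ∈ F, (∑ i, β i * γ i s u) • w s = 0 := by
        rw [← h2]
        simp only [Finset.sum_smul]
        rw [Finset.sum_comm]
        apply Finset.sum_congr rfl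
        intro i _
        rw [Pi.smul_apply, Algebra.smul_def, Finset.mul_sum]
        apply Finset.sum_congr rfl
        intro s _
        rw [Algebra.smul_def]
        change ((β i * γ i s u : (QA Ω)) : Ω) * w s = _
        push_cast
        rw [mul_assoc]
        rfl
      exact linearIndependent_iff'.mp hw F _ h3
    have h4 : ∀ s, ∑ i, (β i : Ω) * f i s = 0 := by
      intro s
      by_cases hs : s ∈ F
      · have h5 : ∀ i, (β i : Ω) * f i s =
            ∑ u, ((β i * γ i s u : (QA Ω)) : Ω) * ((bC u : C) : Ω) := by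
          intro i
          rw [← hγ i s, Finset.mul_sum]
          apply Finset.sum_congr rfl
          intro u _
          push_cast
          ring
        simp only [h5]
        rw [Finset.sum_comm]
        apply Finset.sum_eq_zero
        intro u _
        rw [← Finset.sum_mul]
        have h6 := congrArg (fun z : (QA Ω) => (z : Ω)) (h1 u s hs)
        push_cast at h6
        push_cast
        rw [h6, zero_mul]
      · apply Finset.sum_eq_zero
        intro i _
        have : f i s = 0 := by
          by_contra h0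
          exact hs (hF i (Finsupp.mem_support_iff.mpr h0))
        rw [this]; ring
    have h7 : ∑ i, β i • f i = 0 := by
      ext s
      rw [Finsupp.coe_zero, Pi.zero_apply, Finsupp.finsetSum_apply]
      rw [← h4 s]
      apply Finset.sum_congr rfl
      intro i _
      rw [Finsupp.smul_apply, Algebra.smul_def]
      rfl
    exact Fintype.linearIndependent_iff.mp hf _ h7

/-- **The exceptional set**, general form. -/
theorem exists_exceptional' {ι : Type*} (w : ι → Ω) (hw : LinearIndependent (QA Ω) w)
    (A : Set Ω) (M b : ℕ) (hb : 0 < b)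
    (hM : ∀ (m : ℕ) (f : Fin m → (ι →₀ Ω)), LinearIndependent Ω f → (∀ i s, f i s ∈ A) →
      (∀ i, (f i).sum (fun s c => c * w s) = 0) → m * b ≤ M) (i₀ : ι) :
    ∃ E : Finset ι, i₀ ∉ E ∧ E.card * b ≤ M ∧
      ∀ f : ι →₀ Ω, (∀ s, f s ∈ A) → f.sum (fun s c => c * w s) = 0 → (∀ s ∈ E, f s = 0) →
        f = 0 := by
  classical
  let Q : ℕ → Prop := fun m => ∃ f : Fin m → (ι →₀ Ω), LinearIndependent Ω f ∧
    (∀ i s, f i s ∈ A) ∧ ∀ i, (f i).sum (fun s c => c * w s) = 0
  have hQ0 : Q 0 := ⟨fun i => isEmptyElim i, linearIndependent_empty_type, fun i => isEmptyElim i,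
    fun i => isEmptyElim i⟩
  have hbound : ∀ m, Q m → m ≤ M := by
    rintro m ⟨f, h1, h2, h3⟩
    have := hM m f h1 h2 h3
    nlinarith
  obtain ⟨m, hm, hmax⟩ : ∃ m, Q m ∧ ∀ m', Q m' → m' ≤ m := by
    refine ⟨Nat.findGreatest Q M, ?_, ?_⟩
    · exact Nat.findGreatest_spec (P := Q) (Nat.zero_le _) hQ0
    · intro m' hm'
      exact Nat.le_findGreatest (hbound m' hm') hm'
  obtain ⟨f, hf, hfA, hf0⟩ := hm
  have hcard := hM m f hf hfA hf0
  have hspan : ∀ g : ι →₀ Ω, (∀ s, g s ∈ A) → g.sum (fun s c => c * w s) = 0 →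
      g ∈ Submodule.span Ω (Set.range f) := by
    intro g hgA hg0
    by_contra hg
    have h1 : Q (m + 1) := by
      refine ⟨Fin.cons g f, ?_, ?_, ?_⟩
      · rw [linearIndependent_finCons]
        exact ⟨hf, hg⟩
      · intro i
        refine Fin.cases ?_ ?_ i
        · exact hgA
        · intro i; exact hfA i
      · intro i
        refine Fin.cases ?_ ?_ i
        · exact hg0
        · intro i; exact hf0 i
    have := hmax _ h1
    omega
  let F : Finset ι := (Finset.univ.biUnion (fun i => (f i).support)).erase i₀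
  let ρ : (ι →₀ Ω) →ₗ[Ω] (F → Ω) :=
    { toFun := fun g s => g s
      map_add' := by intro a b; rfl
      map_smul' := by intro a b; rfl }
  have hw0 : ∀ g ∈ Submodule.span Ω (Set.range f), g.sum (fun s c => c * w s) = 0 := by
    intro g hg
    have hlin : ∀ g : ι →₀ Ω, g.sum (fun s c => c * w s) = Finsupp.linearCombination Ω w g := by
      intro g
      rw [Finsupp.linearCombination_apply]
      rfl
    rw [hlin]
    refine Submodule.span_induction (p := fun g _ => Finsupp.linearCombination Ω w g = 0)
      ?_ ?_ ?_ ?_ hg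
    · rintro _ ⟨i, rfl⟩
      rw [← hlin]; exact hf0 i
    · simp
    · intro a b _ _ ha hb
      rw [map_add, ha, hb, add_zero]
    · intro c a _ ha
      rw [map_smul, ha, smul_zero]
  have hsupp : ∀ g ∈ Submodule.span Ω (Set.range f), ∀ s, s ∉ F → s ≠ i₀ → g s = 0 := by
    intro g hg s hs hsi
    refine Submodule.span_induction (p := fun g _ => g s = 0) ?_ ?_ ?_ ?_ hg
    · rintro _ ⟨i, rfl⟩
      by_contra h0
      apply hs
      rw [Finset.mem_erase]
      refine ⟨hsi, Finset.mem_biUnion.mpr ⟨i, Finset.mem_univ _, ?_⟩⟩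
      exact Finsupp.mem_support_iff.mpr h0
    · simp
    · intro a b _ _ ha hb
      rw [Finsupp.add_apply, ha, hb, add_zero]
    · intro c a _ ha
      rw [Finsupp.smul_apply, ha, smul_zero]
  have hρ : ∀ g ∈ Submodule.span Ω (Set.range f), ρ g = 0 → g = 0 := by
    intro g hg h0
    have h1 : ∀ s, s ≠ i₀ → g s = 0 := by
      intro s hs
      by_cases hsF : s ∈ F
      · exact congrFun h0 ⟨s, hsF⟩
      · exact hsupp g hg s hsF hs
    have h2 := hw0 g hg
    have h3 : g.sum (fun s c => c * w s) = g i₀ * w i₀ := by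
      rw [Finsupp.sum_of_support_subset (s := {i₀})]
      · rw [Finset.sum_singleton]
      · intro s hs
        rw [Finset.mem_singleton]
        by_contra hne
        exact (Finsupp.mem_support_iff.mp hs) (h1 s hne)
      · intro i _; ring
    rw [h3] at h2
    have h4 : g i₀ = 0 := (mul_eq_zero.mp h2).resolve_right (hw.ne_zero i₀)
    ext s
    by_cases hs : s = i₀
    · rw [hs, h4]; rfl
    · rw [h1 s hs]; rfl
  obtain ⟨E, hE, hEinj⟩ := Pool.Agent.H301R2.ZG.exists_coords
    ((Submodule.span Ω (Set.range f)).map ρ)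
  refine ⟨E.map ⟨Subtype.val, Subtype.val_injective⟩, ?_, ?_, ?_⟩
  · intro h
    obtain ⟨s, _, hs⟩ := Finset.mem_map.mp h
    have h1 := s.2
    rw [Finset.mem_erase] at h1
    exact h1.1 hs
  · rw [Finset.card_map, hE]
    haveI : Module.Finite Ω (Submodule.span Ω (Set.range f)) :=
      FiniteDimensional.span_of_finite Ω (Set.finite_range f)
    have h1 : finrank Ω ((Submodule.span Ω (Set.range f)).map ρ) ≤ m := by
      refine (Submodule.finrank_map_le _ _).trans ?_
      refine (finrank_range_le_card _).trans ?_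
      rw [Fintype.card_fin]
    exact (Nat.mul_le_mul_right _ h1).trans hcard
  · intro g hgA hg0 hgE
    have hg := hspan g hgA hg0
    apply hρ g hg
    apply hEinj _ (Submodule.mem_map_of_mem hg)
    intro j hj
    exact hgE _ (Finset.mem_map.mpr ⟨j, hj, rfl⟩)

include hV in
/-- one transcendental `t` which is itself in `V` -/
theorem fixed_exceptional {t : Ω} (ht : AlgebraicIndependent (QA Ω) (fun _ : Fin 1 => t)) (D : ℕ)
    (hD : 1 ≤ D) {ι : Type*} (w : ι → Ω)
    (hw : LinearIndependent (QA Ω) (fun o : Option ι => (o.elim t w : Ω)))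
    (hL : ∀ i, w i ∈ V) (htL : t ∈ V) (i₀ : ι) (hi₀ : w i₀ = 1) :
    ∃ E : Finset ι, i₀ ∉ E ∧ E.card * D ≤ (2 * D - 1) ^ 2 ∧
      ∀ f : ι →₀ Ω, (∀ s, f s ∈ boxV (fun _ : Fin 1 => t) (D + 1)) →
        f.sum (fun s c => c * w s) = 0 → (∀ s ∈ E, f s = 0) → f = 0 := by
  classical
  have hw' : LinearIndependent (QA Ω) w := by
    have := hw.comp some (Option.some_injective ι)
    exact this
  refine exists_exceptional' w hw' (boxV (fun _ : Fin 1 => t) (D + 1) : Set Ω) _ D hD ?_ i₀
  intro m f hf hfA hf0
  set tt : Fin 1 → Ω := fun _ => t with htt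
  -- the family of relations
  let G : (Fin m × Fin D) ⊕ Fin (2 * D - 1) → (Option ι →₀ Ω) := fun x =>
    match x with
    | Sum.inl ik => (t ^ (ik.2 : ℕ)) • (f ik.1).mapDomain some
    | Sum.inr u => (t ^ (u : ℕ)) • (Finsupp.single (some i₀) t - Finsupp.single none 1)
  have hpow : ∀ N (k : ℕ), k < N → t ^ k ∈ boxV tt N := by
    intro N k hk
    have := mon_mem tt N (fun _ => k) (fun _ => hk)
    simpa [htt] using this
  have hmd : ∀ i s, (f i).mapDomain some (some s) = f i s := by
    intro i s
    exact Finsupp.mapDomain_apply (Option.some_injective ι) _ _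
  have hmn : ∀ i, (f i).mapDomain some (none : Option ι) = 0 := by
    intro i
    apply Finsupp.mapDomain_of_notMem_range
    simp
  have hcard := rel_core0 hV (κ := (Fin m × Fin D) ⊕ Fin (2 * D - 1))
    (fun o : Option ι => (o.elim t w : Ω)) hw (by
      intro o
      cases o with
      | none => exact htL
      | some i => exact hL i) (boxV tt (2 * D)) G ?_ ?_ ?_
  · rw [Fintype.card_sum, Fintype.card_prod, Fintype.card_fin, Fintype.card_fin,
      Fintype.card_fin] at hcard
    have hC := finrank_boxV_le tt (2 * D)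
    rw [pow_one] at hC
    set c := finrank (QA Ω) (boxV tt (2 * D)) with hc
    have h1 : c * (c - 1) ≤ (2 * D) * (2 * D - 1) :=
      Nat.mul_le_mul hC (Nat.sub_le_sub_right hC 1)
    obtain ⟨e, he⟩ : ∃ e, 2 * D = e + 1 := ⟨2 * D - 1, by omega⟩
    have h2 : 2 * D - 1 = e := by omega
    rw [h2] at hcard h1 ⊢
    rw [he] at h1
    nlinarith
  · -- independence
    rw [Fintype.linearIndependent_iff]
    intro β hβ
    rw [Fintype.sum_sum_type] at hβ
    have hnone := congrArg (fun g : Option ι →₀ Ω => g none) hβ
    simp only [Finsupp.add_apply, Finsupp.finsetSum_apply, Finsupp.coe_zero, Pi.zero_apply] at hnone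
    have h1 : ∀ u, β (Sum.inr u) = 0 := by
      have h2 : ∑ u : Fin (2 * D - 1), β (Sum.inr u) • (∏ i : Fin 1, tt i ^ (u : ℕ)) = 0 := by
        have h3 : ∀ ik : Fin m × Fin D, (β (Sum.inl ik) • G (Sum.inl ik)) none = 0 := by
          intro ik
          change (β (Sum.inl ik) • ((t ^ (ik.2 : ℕ)) • (f ik.1).mapDomain some)) none = 0
          rw [Finsupp.smul_apply, Finsupp.smul_apply, hmn, smul_zero, smul_zero]
        have h4 : ∀ u : Fin (2 * D - 1), (β (Sum.inr u) • G (Sum.inr u)) none =
            -(β (Sum.inr u) • (∏ i : Fin 1, tt i ^ (u : ℕ))) := by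
          intro u
          change (β (Sum.inr u) • ((t ^ (u : ℕ)) •
            (Finsupp.single (some i₀) t - Finsupp.single none 1 : Option ι →₀ Ω))) none = _
          rw [Finsupp.smul_apply, Finsupp.smul_apply, Finsupp.sub_apply, Finsupp.single_apply,
            Finsupp.single_apply, if_neg (by simp), if_pos rfl]
          simp [htt]
        simp only [h3, h4, Finset.sum_const_zero, zero_add, Finset.sum_neg_distrib] at hnone
        exact neg_eq_zero.mp hnone
      have h5 := box_indep ht (2 * D - 1)
      have h6 := h5.comp (fun u : Fin (2 * D - 1) => (fun _ : Fin 1 => u)) (by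
        intro a b hab
        exact congrFun hab 0)
      exact Fintype.linearIndependent_iff.mp h6 (fun u => β (Sum.inr u)) h2
    have h7 : ∑ i, (∑ k, (β (Sum.inl (i, k)) : Ω) * t ^ (k : ℕ)) • f i = 0 := by
      ext s
      have h8 := congrArg (fun g : Option ι →₀ Ω => g (some s)) hβ
      simp only [Finsupp.add_apply, Finsupp.finsetSum_apply, Finsupp.coe_zero, Pi.zero_apply]
        at h8
      have h9 : ∑ u : Fin (2 * D - 1), (β (Sum.inr u) • G (Sum.inr u)) (some s) = 0 := by
        apply Finset.sum_eq_zero
        intro u _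
        rw [h1 u, zero_smul]; rfl
      rw [h9, add_zero, Fintype.sum_prod_type] at h8
      rw [Finsupp.finsetSum_apply, Finsupp.coe_zero, Pi.zero_apply, ← h8]
      apply Finset.sum_congr rfl
      intro i _
      rw [Finsupp.smul_apply, smul_eq_mul, Finset.sum_mul]
      apply Finset.sum_congr rfl
      intro k _
      change _ = (β (Sum.inl (i, k)) • ((t ^ (k : ℕ)) • (f i).mapDomain some)) (some s)
      rw [Finsupp.smul_apply, Finsupp.smul_apply, hmd, Algebra.smul_def, smul_eq_mul, mul_assoc]
      rfl
    have h10 := Fintype.linearIndependent_iff.mp hf _ h7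
    rintro (⟨i, k⟩ | u)
    · have h5 := box_indep ht D
      have h6 := h5.comp (fun u : Fin D => (fun _ : Fin 1 => u)) (by
        intro a b hab
        exact congrFun hab 0)
      refine Fintype.linearIndependent_iff.mp h6 (fun u => β (Sum.inl (i, u))) ?_ k
      refine Eq.trans ?_ (h10 i)
      apply Finset.sum_congr rfl
      intro k _
      rw [Algebra.smul_def]
      simp [htt]
    · exact h1 u
  · -- coefficients
    intro x s
    rcases x with ⟨i, k⟩ | u
    · change ((t ^ (k : ℕ)) • (f i).mapDomain some) s ∈ _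
      rw [Finsupp.smul_apply, smul_eq_mul]
      cases s with
      | none => rw [hmn, mul_zero]; exact Submodule.zero_mem _
      | some s =>
        rw [hmd]
        exact box_mul tt D (D + 1) (2 * D) (by omega) _ (hpow D k k.isLt) _ (hfA i s)
    · change ((t ^ (u : ℕ)) • (Finsupp.single (some i₀) t - Finsupp.single none 1 :
        Option ι →₀ Ω)) s ∈ _
      rw [Finsupp.smul_apply, Finsupp.sub_apply, Finsupp.single_apply, Finsupp.single_apply,
        smul_eq_mul, mul_sub]
      have hu := u.isLt
      apply Submodule.sub_mem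
      · split_ifs
        · rw [← pow_succ]
          exact hpow _ _ (by omega)
        · rw [mul_zero]; exact Submodule.zero_mem _
      · split_ifs
        · rw [mul_one]
          exact hpow _ _ (by omega)
        · rw [mul_zero]; exact Submodule.zero_mem _
  · -- the relations hold
    intro x
    have hlin : ∀ g : Option ι →₀ Ω, g.sum (fun s c => c * (s.elim t w : Ω)) =
        Finsupp.linearCombination Ω (fun o : Option ι => (o.elim t w : Ω)) g := by
      intro g
      rw [Finsupp.linearCombination_apply]
      rfl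
    rw [hlin]
    rcases x with ⟨i, k⟩ | u
    · change Finsupp.linearCombination Ω _ ((t ^ (k : ℕ)) • (f i).mapDomain some) = 0
      rw [map_smul, Finsupp.linearCombination_mapDomain]
      have h1 : Finsupp.linearCombination Ω ((fun o : Option ι => (o.elim t w : Ω)) ∘ some) (f i) =
          (f i).sum (fun s c => c * w s) := by
        rw [Finsupp.linearCombination_apply]
        rfl
      rw [h1, hf0, smul_zero]
    · change Finsupp.linearCombination Ω _ ((t ^ (u : ℕ)) •
        (Finsupp.single (some i₀) t - Finsupp.single none 1 : Option ι →₀ Ω)) = 0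
      rw [map_smul, map_sub, Finsupp.linearCombination_single, Finsupp.linearCombination_single]
      simp [hi₀]

end Pool.Agent.W254.Ab
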