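import Pool.Agent.W254.Ab.Rel

/-!
# Relations whose coefficients are polynomials in algebraically independent numbers
-/

set_option autoImplicit false

namespace Pool.Agent.W254.Ab

open Module Finset MvPolynomial
open Pool.Agent.W254.PA (Hyp)

variable {Ω : Type*} [Field Ω] [CharZero Ω] {V : Submodule (QA Ω) Ω}
  (hV : Hyp V)

/-- values at `t` of polynomials of degree less than `N` in each variable -/
noncomputable def boxV {n : ℕ} (t : Fin n → Ω) (N : ℕ) : Submodule (QA Ω) Ω :=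
  Submodule.span (QA Ω) (Set.range (fun e : Fin n → Fin N => ∏ i, t i ^ (e i : ℕ)))

instance {n : ℕ} (t : Fin n → Ω) (N : ℕ) : FiniteDimensional (QA Ω) (boxV t N) :=
  FiniteDimensional.span_of_finite (QA Ω) (Set.finite_range _)

theorem finrank_boxV_le {n : ℕ} (t : Fin n → Ω) (N : ℕ) : finrank (QA Ω) (boxV t N) ≤ N ^ n := by
  refine (finrank_range_le_card _).trans ?_
  rw [Fintype.card_fun, Fintype.card_fin, Fintype.card_fin]

theorem mon_mem {n : ℕ} (t : Fin n → Ω) (N : ℕ) (e : Fin n → ℕ) (he : ∀ i, e i < N) :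
    ∏ i, t i ^ e i ∈ boxV t N :=
  Submodule.subset_span ⟨fun i => ⟨e i, he i⟩, rfl⟩

theorem box_indep {n : ℕ} {t : Fin n → Ω} (ht : AlgebraicIndependent (QA Ω) t) (N : ℕ) :
    LinearIndependent (QA Ω) (fun e : Fin n → Fin N => ∏ i, t i ^ (e i : ℕ)) := by
  classical
  rw [Fintype.linearIndependent_iff]
  intro c hc
  let fe : (Fin n → Fin N) → (Fin n →₀ ℕ) := fun e => Finsupp.equivFunOnFinite.symm (fun i => (e i : ℕ))
  have hfe : ∀ e i, fe e i = (e i : ℕ) := fun e i => rfl
  have hinj : Function.Injective fe := by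
    intro e e' h
    funext i
    have := congrArg (fun g : Fin n →₀ ℕ => g i) h
    exact Fin.ext this
  set Q : MvPolynomial (Fin n) (QA Ω) := ∑ e, monomial (fe e) (c e) with hQ
  have h1 : aeval t Q = 0 := by
    rw [hQ, map_sum, ← hc]
    apply Finset.sum_congr rfl
    intro e _
    rw [aeval_monomial, Algebra.smul_def, Finsupp.prod_fintype _ _ (fun i => pow_zero _)]
    rfl
  have h2 : Q = 0 := (algebraicIndependent_iff.mp ht) Q h1
  intro e
  have h3 : coeff (fe e) Q = c e := by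
    rw [hQ, coeff_sum, Finset.sum_eq_single e]
    · rw [coeff_monomial, if_pos rfl]
    · intro e' _ he'
      rw [coeff_monomial, if_neg (fun h => he' (hinj h))]
    · intro h; exact absurd (Finset.mem_univ _) h
  rw [← h3, h2, coeff_zero]

theorem finrank_boxV {n : ℕ} {t : Fin n → Ω} (ht : AlgebraicIndependent (QA Ω) t) (N : ℕ) :
    finrank (QA Ω) (boxV t N) = N ^ n := by
  have := finrank_span_eq_card (box_indep ht N)
  rwa [Fintype.card_fun, Fintype.card_fin, Fintype.card_fin] at this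

theorem box_mul {n : ℕ} (t : Fin n → Ω) (M N L : ℕ) (h : M + N ≤ L + 1) :
    ∀ b ∈ boxV t M, ∀ a ∈ boxV t N, b * a ∈ boxV t L := by
  intro b hb a ha
  have h1 : b * a ∈ boxV t M * boxV t N := Submodule.mul_mem_mul hb ha
  have h2 : boxV t M * boxV t N ≤ boxV t L := by
    unfold boxV
    rw [Submodule.span_mul_span, Submodule.span_le]
    rintro _ ⟨_, ⟨e, rfl⟩, _, ⟨e', rfl⟩, rfl⟩
    have h3 : (∏ i, t i ^ (e i : ℕ)) * ∏ i, t i ^ (e' i : ℕ) = ∏ i, t i ^ ((e i : ℕ) + (e' i : ℕ)) := by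
      rw [← Finset.prod_mul_distrib]
      apply Finset.prod_congr rfl
      intro i _
      rw [pow_add]
    change (∏ i, t i ^ (e i : ℕ)) * ∏ i, t i ^ (e' i : ℕ) ∈ _
    rw [h3]
    refine mon_mem t L (fun i => (e i : ℕ) + (e' i : ℕ)) ?_
    intro i
    have := (e i).isLt
    have := (e' i).isLt
    omega
  exact h2 h1

include hV in
/-- **Exceptional sets for polynomial coefficients.** -/
theorem box_exceptional {n : ℕ} {t : Fin n → Ω} (ht : AlgebraicIndependent (QA Ω) t) (D : ℕ)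
    {ι : Type*} (w : ι → Ω) (hw : LinearIndependent (QA Ω) w) (hL : ∀ i, w i ∈ V)
    (i₀ : ι) :
    ∃ E : Finset ι, i₀ ∉ E ∧ E.card ≤ (4 * D) ^ n - 2 ^ n ∧
      ∀ f : ι →₀ Ω, (∀ s, f s ∈ boxV t (D + 1)) → f.sum (fun s c => c * w s) = 0 →
        (∀ s ∈ E, f s = 0) → f = 0 := by
  rcases Nat.eq_zero_or_pos D with hD0 | hD
  · subst hD0
    have h0 : finrank (QA Ω) (boxV t 1) = 1 := by rw [finrank_boxV ht 1, one_pow]
    obtain ⟨E, h1, h2, h3⟩ := exists_exceptional hV w hw hL (boxV t 1) (boxV t 1) (boxV t 1)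
      (by rw [h0]; exact one_pos) (box_mul t 1 1 1 (by omega)) i₀
    refine ⟨E, h1, ?_, h3⟩
    rw [h0] at h2
    omega
  have hBd : finrank (QA Ω) (boxV t D) = D ^ n := finrank_boxV ht D
  have hDn : 0 < D ^ n := Nat.pow_pos (by omega)
  obtain ⟨E, h1, h2, h3⟩ := exists_exceptional hV w hw hL (boxV t (D + 1)) (boxV t D) (boxV t (2 * D))
    (by rw [hBd]; exact hDn) (box_mul t D (D + 1) (2 * D) (by omega)) i₀
  refine ⟨E, h1, ?_, h3⟩
  rw [hBd] at h2
  have h4 := finrank_boxV_le t (2 * D)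
  set c := finrank (QA Ω) (boxV t (2 * D)) with hc
  have h5 : c * (c - 1) ≤ (2 * D) ^ n * ((2 * D) ^ n - 1) :=
    Nat.mul_le_mul h4 (Nat.sub_le_sub_right h4 1)
  have h6 : (2 * D) ^ n * ((2 * D) ^ n - 1) = (2 ^ n * ((2 * D) ^ n - 1)) * D ^ n := by
    rw [mul_pow]; ring
  have h7 : E.card * D ^ n ≤ (2 ^ n * ((2 * D) ^ n - 1)) * D ^ n := by
    rw [← h6]; exact h2.trans h5
  have h8 := Nat.le_of_mul_le_mul_right h7 hDn
  have h9 : 2 ^ n * ((2 * D) ^ n - 1) = (4 * D) ^ n - 2 ^ n := by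
    rw [Nat.mul_sub, mul_one, ← mul_pow]
    congr 2
    ring
  rwa [h9] at h8

include hV in
/-- **Main theorem on relations.** Let `t` be algebraically independent, let the `w i` be linearly
independent elements of `V`. There is a set `E` of at most `(4D)^n - 2^n` indices, not containing a
given index, such that no nonzero polynomial in which every monomial has degree at most `D` in each
variable attached to `t` and contains exactly one of the variables attached to `w i`, `i ∉ E`,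
vanishes. -/
theorem box_relations {n : ℕ} {t : Fin n → Ω} (ht : AlgebraicIndependent (QA Ω) t) (D : ℕ)
    {ι : Type*} (w : ι → Ω) (hw : LinearIndependent (QA Ω) w) (hL : ∀ i, w i ∈ V)
    (i₀ : ι) :
    ∃ E : Finset ι, i₀ ∉ E ∧ E.card ≤ (4 * D) ^ n - 2 ^ n ∧
      ∀ Q : ι →₀ MvPolynomial (Fin n) (QA Ω), (∀ s, ∀ m ∈ (Q s).support, ∀ i, m i ≤ D) →
        (∀ s ∈ E, Q s = 0) → Q.sum (fun s P => aeval t P * w s) = 0 → Q = 0 := by
  classical
  obtain ⟨E, h1, h2, h3⟩ := box_exceptional hV ht D w hw hL i₀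
  refine ⟨E, h1, h2, fun Q hQ hQE hQ0 => ?_⟩
  have hf := h3 (Q.mapRange (aeval t) (map_zero _)) ?_ ?_ ?_
  · ext1 s
    have h4 := congrArg (fun g : ι →₀ Ω => g s) hf
    simp only [Finsupp.mapRange_apply, Finsupp.coe_zero, Pi.zero_apply] at h4
    exact (algebraicIndependent_iff.mp ht) _ h4
  · intro s
    rw [Finsupp.mapRange_apply, aeval_def, eval₂_eq]
    apply Submodule.sum_mem
    intro m hm
    have h5 := (boxV t (D + 1)).smul_mem (coeff m (Q s))
      (mon_mem t (D + 1) (fun i => m i) (fun i => Nat.lt_succ_of_le (hQ s m hm i)))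
    rw [Algebra.smul_def] at h5
    have h6 : ∏ i, t i ^ m i = ∏ i ∈ m.support, t i ^ m i := by
      symm
      apply Finset.prod_subset (Finset.subset_univ _)
      intro i _ hi
      rw [Finsupp.notMem_support_iff.mp hi, pow_zero]
    rw [h6] at h5
    exact h5
  · rw [Finsupp.sum_mapRange_index (by intro i; ring)]
    exact hQ0
  · intro s hs
    rw [Finsupp.mapRange_apply, hQE s hs, map_zero]

end Pool.Agent.W254.Ab
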