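import Pool.Agent.W254.Ab.Trunc
import Pool.Agent.W256.Curve6

/-!
# Growth of products and fields of transcendence degree one, for an arbitrary hyperplane theorem
(after helper256)
-/

set_option autoImplicit false

namespace Pool.Agent.W254.Ab

open Module IntermediateField
open Pool.Agent.W254.PA (Hyp)
open Pool.Agent.W256 (growth_of half_mul sum_degrees_ge)

variable {Ω : Type*} [Field Ω] [CharZero Ω] [IsAlgClosed Ω] {V₀ : Submodule (QA Ω) Ω}
  (hV₀ : Hyp V₀)

include hV₀ in
theorem growth (V X : Submodule (QA Ω) Ω) [FiniteDimensional (QA Ω) V]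
    [FiniteDimensional (QA Ω) X] (hV : V ≤ V₀) (hV0 : V ≠ ⊥) (s : ℕ)
    (hs : s ≤ finrank (QA Ω) X) :
    finrank (QA Ω) X + s * finrank (QA Ω) V ≤
      finrank (QA Ω) (X * V : Submodule (QA Ω) Ω) + s * s := by
  have : IsAlgClosed (QA Ω) := (algebraicClosure.isAlgClosure ℚ Ω).isAlgClosed
  refine growth_of X V hV0 s hs ?_
  intro Y hYX hYs
  have : FiniteDimensional (QA Ω) Y := Submodule.finiteDimensional_of_le hYX
  have : FiniteDimensional (QA Ω) (Y * V : Submodule (QA Ω) Ω) :=
    Module.Finite.iff_fg.mpr (Submodule.FG.mul (Module.Finite.iff_fg.mp inferInstance)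
      (Module.Finite.iff_fg.mp inferInstance))
  have h := product_le hV₀ Y V (Y * V) hV (fun x hx w hw => Submodule.mul_mem_mul hx hw)
  rwa [hYs] at h

include hV₀ in
/-- growth of the powers of a space of linear forms in logarithms -/
theorem pow_growth (V : Submodule (QA Ω) Ω) [FiniteDimensional (QA Ω) V] (hV : V ≤ V₀)
    (h1 : (1 : Ω) ∈ V) (m : ℕ) (hm : 1 ≤ m) :
    finrank (QA Ω) (V ^ m : Submodule (QA Ω) Ω) + finrank (QA Ω) V ^ 2 / 4 ≤
      finrank (QA Ω) (V ^ (m + 1) : Submodule (QA Ω) Ω) := by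
  have hfd : ∀ k, FiniteDimensional (QA Ω) (V ^ k : Submodule (QA Ω) Ω) := fun k =>
    Module.Finite.iff_fg.mpr (Submodule.FG.pow (Module.Finite.iff_fg.mp inferInstance) k)
  have := hfd m
  have := hfd (m + 1)
  have hle : V ≤ V ^ m := by
    obtain ⟨k, rfl⟩ : ∃ k, m = k + 1 := ⟨m - 1, by omega⟩
    have h2 : (1 : Submodule (QA Ω) Ω) ≤ V ^ k := by
      rw [Submodule.one_le]
      clear hm
      have : ∀ j, (1 : Ω) ∈ V ^ j := by
        intro j
        induction j with
        | zero => rw [pow_zero]; exact Submodule.one_le.mp le_rfl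
        | succ j ih =>
          rw [pow_succ]
          have := Submodule.mul_mem_mul ih h1
          rwa [mul_one] at this
      exact this k
    calc V = 1 * V := (one_mul V).symm
      _ ≤ V ^ k * V := mul_le_mul' h2 le_rfl
      _ = V ^ (k + 1) := (pow_succ V k).symm
  have hfr := Submodule.finrank_mono hle
  have hV0 : V ≠ ⊥ := by
    rintro rfl
    exact one_ne_zero ((Submodule.mem_bot (QA Ω)).mp h1)
  have key := growth hV₀ V (V ^ m) hV hV0 (finrank (QA Ω) V / 2) (by omega)
  rw [← pow_succ] at key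
  have h3 := half_mul (finrank (QA Ω) V)
  omega

include hV₀ in
/-- **Degrees of linear forms in logarithms.** -/
theorem degrees_of_forms (h1V : (1 : Ω) ∈ V₀) (F : IntermediateField (QA Ω) Ω) (N : ℕ)
    (x : Fin N → F)
    (hx : ∀ i, (x i : Ω) ∈ V₀) (hli : LinearIndependent (QA Ω) (Fin.cons 1 x : Fin (N + 1) → F))
    (hfin : ∀ i, FiniteDimensional (adjoin (QA Ω) {x i}) F) :
    (N + 1) ^ 2 / 4 ≤ ∑ i, finrank (adjoin (QA Ω) {x i}) F := by
  classical
  have hac : IsAlgClosed (QA Ω) := (algebraicClosure.isAlgClosure ℚ Ω).isAlgClosed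
  rcases N with _ | N
  · simp
  have hcons : Set.range (Fin.cons 1 x : Fin (N + 1 + 1) → F) = {1} ∪ Set.range x := by
    rw [Fin.range_cons, Set.singleton_union]
  refine sum_degrees_ge x hfin 0 ?_ _ ?_
  · rintro ⟨c, hc⟩
    obtain ⟨h1, h2⟩ := linearIndependent_finCons.mp hli
    have hc0 : c ≠ 0 := by
      rintro rfl
      rw [map_zero] at hc
      exact h1.ne_zero 0 hc
    apply h2
    have h3 : (1 : F) = c⁻¹ • x 0 := by
      rw [hc, Algebra.smul_def, ← map_mul, inv_mul_cancel₀ hc0, map_one]
    rw [h3]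
    exact Submodule.smul_mem _ _ (Submodule.subset_span ⟨0, rfl⟩)
  · intro m hm
    set V : Submodule (QA Ω) F := Submodule.span (QA Ω) ({1} ∪ Set.range x) with hV
    have hVr : finrank (QA Ω) V = N + 1 + 1 := by
      rw [hV, ← hcons, finrank_span_eq_card hli, Fintype.card_fin]
    have hVfd : FiniteDimensional (QA Ω) V := FiniteDimensional.span_of_finite (QA Ω)
      ((Set.finite_singleton _).union (Set.finite_range x))
    have hinj : Function.Injective F.val.toLinearMap := Subtype.val_injective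
    have hmap : ∀ W : Submodule (QA Ω) F,
        finrank (QA Ω) (W.map F.val.toLinearMap) = finrank (QA Ω) W :=
      fun W => (Submodule.equivMapOfInjective F.val.toLinearMap hinj W).finrank_eq.symm
    have hpow : ∀ k, (V ^ k).map F.val.toLinearMap = (V.map F.val.toLinearMap) ^ k := by
      intro k
      exact Submodule.map_pow V F.val k
    have h1 := pow_growth hV₀ (V.map F.val.toLinearMap) (by
      rw [hV, Submodule.map_span, Submodule.span_le]
      rintro _ ⟨y, hy | ⟨i, rfl⟩, rfl⟩
      · rw [Set.mem_singleton_iff] at hy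
        subst hy
        exact h1V
      · exact hx i) ⟨1, Submodule.subset_span (Or.inl rfl), rfl⟩ m hm
    rw [← hpow, ← hpow, hmap, hmap, hmap, hVr] at h1
    exact h1

end Pool.Agent.W254.Ab
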