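import Pool.Agent.W254.Ab.Opt

/-!
# Relations whose coefficients are polynomials in arbitrary numbers
-/

set_option autoImplicit false

namespace Pool.Agent.W254.Ab

open Module Finset MvPolynomial
open Pool.Agent.W254.PA (Hyp)

variable {Ω : Type*} [Field Ω] [CharZero Ω] {V : Submodule (QA Ω) Ω}
  (hV : Hyp V)

theorem boxV_double {n : ℕ} (t : Fin n → Ω) (D : ℕ) :
    finrank (QA Ω) (boxV t (2 * D)) ≤ 2 ^ n * finrank (QA Ω) (boxV t D) := by
  classical
  let Φ : ((Fin n → Fin 2) → boxV t D) →ₗ[(QA Ω)] Ω :=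
    ∑ ε : Fin n → Fin 2, (LinearMap.mulLeft (QA Ω) (∏ i, t i ^ (D * (ε i : ℕ)))) ∘ₗ
      (boxV t D).subtype ∘ₗ LinearMap.proj ε
  have hΦ : ∀ v, Φ v = ∑ ε : Fin n → Fin 2, (∏ i, t i ^ (D * (ε i : ℕ))) * (v ε : Ω) := by
    intro v
    change (∑ ε : Fin n → Fin 2, _ : ((Fin n → Fin 2) → boxV t D) →ₗ[(QA Ω)] Ω) v = _
    rw [LinearMap.sum_apply]
    rfl
  have hle : boxV t (2 * D) ≤ LinearMap.range Φ := by
    unfold boxV
    rw [Submodule.span_le]
    rintro _ ⟨e, rfl⟩
    rcases Nat.eq_zero_or_pos D with hD | hD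
    · subst hD
      rcases Nat.eq_zero_or_pos n with hn | hn
      · subst hn
        refine ⟨fun _ => ⟨1, ?_⟩, ?_⟩
        · have := mon_mem t 0 (fun i => i.elim0) (fun i => i.elim0)
          simpa using this
        · refine (hΦ _).trans ?_
          simp
      · have := (e ⟨0, hn⟩).isLt
        omega
    · let ε₀ : Fin n → Fin 2 := fun i => ⟨(e i : ℕ) / D, by
        have := (e i).isLt
        rw [Nat.div_lt_iff_lt_mul hD]
        omega⟩
      have hm : ∏ i, t i ^ ((e i : ℕ) % D) ∈ boxV t D :=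
        mon_mem t D (fun i => (e i : ℕ) % D) (fun i => Nat.mod_lt _ hD)
      refine ⟨Pi.single ε₀ ⟨_, hm⟩, (hΦ _).trans ?_⟩
      rw [Finset.sum_eq_single ε₀]
      · rw [Pi.single_eq_same]
        change (∏ i, t i ^ (D * ((e i : ℕ) / D))) * ∏ i, t i ^ ((e i : ℕ) % D) = _
        rw [← Finset.prod_mul_distrib]
        apply Finset.prod_congr rfl
        intro i _
        rw [← pow_add, Nat.div_add_mod]
      · intro ε _ hε
        rw [Pi.single_eq_of_ne hε]
        simp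
      · intro h
        exact absurd (Finset.mem_univ _) h
  refine (Submodule.finrank_mono hle).trans ?_
  refine (LinearMap.finrank_range_le Φ).trans ?_
  rw [Module.finrank_pi_fintype, Finset.sum_const, Finset.card_univ, Fintype.card_fun,
    Fintype.card_fin, Fintype.card_fin, smul_eq_mul]

theorem one_mem_boxV {n : ℕ} (t : Fin n → Ω) {N : ℕ} (hN : 1 ≤ N) : (1 : Ω) ∈ boxV t N := by
  have := mon_mem t N (fun _ => 0) (fun _ => hN)
  simpa using this

theorem finrank_boxV_pos {n : ℕ} (t : Fin n → Ω) {N : ℕ} (hN : 1 ≤ N) :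
    0 < finrank (QA Ω) (boxV t N) := by
  rw [Module.finrank_pos_iff]
  exact ⟨⟨⟨1, one_mem_boxV t hN⟩, 0, fun h => one_ne_zero (congrArg (fun z : boxV t N => (z : Ω)) h)⟩⟩

include hV in
/-- **Exceptional sets for polynomial coefficients in arbitrary numbers.** -/
theorem gen_exceptional {n : ℕ} (t : Fin n → Ω) (D : ℕ)
    {ι : Type*} (w : ι → Ω) (hw : LinearIndependent (QA Ω) w) (hL : ∀ i, w i ∈ V)
    (i₀ : ι) :
    ∃ E : Finset ι, i₀ ∉ E ∧ E.card ≤ (4 * D) ^ n - 2 ^ n ∧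
      ∀ f : ι →₀ Ω, (∀ s, f s ∈ boxV t (D + 1)) → f.sum (fun s c => c * w s) = 0 →
        (∀ s ∈ E, f s = 0) → f = 0 := by
  rcases Nat.eq_zero_or_pos D with hD0 | hD
  · subst hD0
    have h0 : finrank (QA Ω) (boxV t 1) = 1 := by
      have h1 := finrank_boxV_pos t (N := 1) le_rfl
      have h2 := finrank_boxV_le t 1
      rw [one_pow] at h2
      omega
    obtain ⟨E, h1, h2, h3⟩ := exists_exceptional hV w hw hL (boxV t 1) (boxV t 1) (boxV t 1)
      (by rw [h0]; exact one_pos) (box_mul t 1 1 1 (by omega)) i₀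
    refine ⟨E, h1, ?_, h3⟩
    rw [h0] at h2
    omega
  have hb := finrank_boxV_pos t hD
  obtain ⟨E, h1, h2, h3⟩ := exists_exceptional hV w hw hL (boxV t (D + 1)) (boxV t D) (boxV t (2 * D))
    hb (box_mul t D (D + 1) (2 * D) (by omega)) i₀
  refine ⟨E, h1, ?_, h3⟩
  have h4 := finrank_boxV_le t (2 * D)
  have h5 := boxV_double t D
  set c := finrank (QA Ω) (boxV t (2 * D)) with hc
  set b := finrank (QA Ω) (boxV t D) with hb'
  have h6 : c * (c - 1) ≤ (2 ^ n * b) * ((2 * D) ^ n - 1) :=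
    Nat.mul_le_mul h5 (Nat.sub_le_sub_right h4 1)
  have h7 : E.card * b ≤ (2 ^ n * ((2 * D) ^ n - 1)) * b := by
    calc E.card * b ≤ c * (c - 1) := h2
      _ ≤ (2 ^ n * b) * ((2 * D) ^ n - 1) := h6
      _ = _ := by ring
  have h8 := Nat.le_of_mul_le_mul_right h7 hb
  have h9 : 2 ^ n * ((2 * D) ^ n - 1) = (4 * D) ^ n - 2 ^ n := by
    rw [Nat.mul_sub, mul_one, ← mul_pow]
    congr 2
    ring
  rwa [h9] at h8

include hV in
/-- **Main theorem on relations, arbitrary numbers.** -/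
theorem gen_relations {n : ℕ} (t : Fin n → Ω) (D : ℕ)
    {ι : Type*} (w : ι → Ω) (hw : LinearIndependent (QA Ω) w) (hL : ∀ i, w i ∈ V)
    (i₀ : ι) :
    ∃ E : Finset ι, i₀ ∉ E ∧ E.card ≤ (4 * D) ^ n - 2 ^ n ∧
      ∀ Q : ι →₀ MvPolynomial (Fin n) (QA Ω), (∀ s, ∀ m ∈ (Q s).support, ∀ i, m i ≤ D) →
        (∀ s ∈ E, aeval t (Q s) = 0) → Q.sum (fun s P => aeval t P * w s) = 0 →
        ∀ s, aeval t (Q s) = 0 := by
  classical
  obtain ⟨E, h1, h2, h3⟩ := gen_exceptional hV t D w hw hL i₀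
  refine ⟨E, h1, h2, fun Q hQ hQE hQ0 => ?_⟩
  have hf := h3 (Q.mapRange (aeval t) (map_zero _)) ?_ ?_ ?_
  · intro s
    have h4 := congrArg (fun g : ι →₀ Ω => g s) hf
    simpa only [Finsupp.mapRange_apply, Finsupp.coe_zero, Pi.zero_apply] using h4
  · intro s
    rw [Finsupp.mapRange_apply, aeval_def, eval₂_eq]
    apply Submodule.sum_mem
    intro m hm
    have h5 := (boxV t (D + 1)).smul_mem (coeff m (Q s))
      (mon_mem t (D + 1) (fun i => m i) (fun i => Nat.lt_succ_of_le (hQ s m hm i)))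
    rw [Algebra.smul_def] at h5
    have h6 : ∏ i, t i ^ m i = ∏ i ∈ m.support, t i ^ m i := by
      symm
      apply Finset.prod_subset (Finset.subset_univ _)
      intro i _ hi
      rw [Finsupp.notMem_support_iff.mp hi, pow_zero]
    rw [h6] at h5
    exact h5
  · rw [Finsupp.sum_mapRange_index (by intro i; ring)]
    exact hQ0
  · intro s hs
    rw [Finsupp.mapRange_apply]
    exact hQE s hs

end Pool.Agent.W254.Ab
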