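import Pool.Agent.W254.Ab.Box

/-!
# Polynomial relations which are linear in some of the variables
-/

set_option autoImplicit false

namespace Pool.Agent.W254.Ab

open Module Finset MvPolynomial
open Pool.Agent.W254.PA (Hyp)

variable {Ω : Type*} [Field Ω] [CharZero Ω]

/-- `P` has degree at most `D` in each of the first variables, and every monomial of `P` either
contains none of the variables attached to `ι` or exactly one of them, to the first power and not
in `E`. -/
def LinIn {n : ℕ} {ι : Type} (D : ℕ) (E : Finset ι) (P : MvPolynomial (Fin n ⊕ ι) (QA Ω)) : Prop :=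
  ∀ m ∈ P.support, (∀ i, m (Sum.inl i) ≤ D) ∧
    ((∀ s, m (Sum.inr s) = 0) ∨ ∃ s, s ∉ E ∧ m (Sum.inr s) = 1 ∧ ∀ s', s' ≠ s → m (Sum.inr s') = 0)

/-- passage to polynomials -/
theorem linIn_zero {n : ℕ} {t : Fin n → Ω} (D : ℕ) {ι : Type} (l : ι → Ω) (E : Finset ι)
    (hE : ∀ Q : Option ι →₀ MvPolynomial (Fin n) (QA Ω), (∀ s, ∀ m ∈ (Q s).support, ∀ i, m i ≤ D) →
      (∀ s ∈ E, Q (some s) = 0) → Q.sum (fun s P => aeval t P * (s.elim 1 l : Ω)) = 0 → Q = 0)
    (P : MvPolynomial (Fin n ⊕ ι) (QA Ω)) (hP : LinIn D E P)
    (hP0 : aeval (Sum.elim t l) P = 0) : P = 0 := by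
  classical
  -- the last variable of a monomial
  have hex : ∀ m : Fin n ⊕ ι →₀ ℕ, ∃ o : Option ι, m ∈ P.support →
      (∀ s, m (Sum.inr s) = if o = some s then 1 else 0) ∧ ∀ s, o = some s → s ∉ E := by
    intro m
    by_cases hm : m ∈ P.support
    · rcases (hP m hm).2 with h | ⟨s, hs, h1, h2⟩
      · exact ⟨none, fun _ => ⟨fun s => by rw [h s, if_neg (by simp)], by simp⟩⟩
      · refine ⟨some s, fun _ => ⟨fun s' => ?_, ?_⟩⟩
        · by_cases hss : s' = s
          · rw [hss, h1, if_pos rfl]
          · rw [h2 s' hss, if_neg (fun h => hss (Option.some.inj h).symm)]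
        · intro s' hs'
          rw [← Option.some.inj hs']; exact hs
    · exact ⟨none, fun h => absurd h hm⟩
  choose o ho using hex
  let lf : (Fin n ⊕ ι →₀ ℕ) → (Fin n →₀ ℕ) := fun m =>
    Finsupp.equivFunOnFinite.symm (fun i => m (Sum.inl i))
  have hlf : ∀ m i, lf m i = m (Sum.inl i) := fun m i => rfl
  have hinj : ∀ m ∈ P.support, ∀ m' ∈ P.support, o m = o m' → lf m = lf m' → m = m' := by
    intro m hm m' hm' h1 h2
    ext x
    cases x with
    | inl i => exact congrArg (fun g : Fin n →₀ ℕ => g i) h2
    | inr s => rw [(ho m hm).1 s, (ho m' hm').1 s, h1]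
  let Q : Option ι →₀ MvPolynomial (Fin n) (QA Ω) :=
    ∑ m ∈ P.support, Finsupp.single (o m) (monomial (lf m) (coeff m P))
  have hQs : ∀ s, Q s = ∑ m ∈ P.support, if o m = s then monomial (lf m) (coeff m P) else 0 := by
    intro s
    change (∑ m ∈ P.support, Finsupp.single (o m) (monomial (lf m) (coeff m P))) s = _
    rw [Finsupp.finsetSum_apply]
    apply Finset.sum_congr rfl
    intro m _
    rw [Finsupp.single_apply]
  have hQ0 := hE Q ?_ ?_ ?_
  · -- conclusion
    by_contra hne
    obtain ⟨m, hm⟩ := Finset.nonempty_iff_ne_empty.mpr (fun h => hne (support_eq_empty.mp h))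
    have h1 : coeff (lf m) (Q (o m)) = coeff m P := by
      rw [hQs, coeff_sum, Finset.sum_eq_single m]
      · rw [if_pos rfl, coeff_monomial, if_pos rfl]
      · intro m' hm' hmm
        by_cases h2 : o m' = o m
        · rw [if_pos h2, coeff_monomial, if_neg]
          intro h3
          exact hmm (hinj m' hm' m hm h2 h3)
        · rw [if_neg h2, coeff_zero]
      · intro h; exact absurd hm h
    rw [hQ0, Finsupp.coe_zero, Pi.zero_apply, coeff_zero] at h1
    exact (mem_support_iff.mp hm) h1.symm
  · intro s m hm i
    rw [hQs] at hm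
    have h1 := support_sum hm
    rw [Finset.mem_biUnion] at h1
    obtain ⟨m', hm', h2⟩ := h1
    by_cases h3 : o m' = s
    · rw [if_pos h3] at h2
      have h4 := support_monomial_subset h2
      rw [Finset.mem_singleton] at h4
      rw [h4, hlf]
      exact (hP m' hm').1 i
    · rw [if_neg h3] at h2
      simp at h2
  · intro s hs
    rw [hQs]
    apply Finset.sum_eq_zero
    intro m hm
    rw [if_neg]
    intro h
    exact (ho m hm).2 s h hs
  · have h1 : Q.sum (fun s P => aeval t P * (s.elim 1 l : Ω)) =
        ∑ m ∈ P.support, aeval t (monomial (lf m) (coeff m P)) * ((o m).elim 1 l : Ω) := by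
      change (∑ m ∈ P.support, Finsupp.single (o m) (monomial (lf m) (coeff m P))).sum _ = _
      rw [← Finsupp.sum_finsetSum_index]
      · apply Finset.sum_congr rfl
        intro m _
        rw [Finsupp.sum_single_index]
        rw [map_zero, zero_mul]
      · intro s; rw [map_zero, zero_mul]
      · intro s a b; rw [map_add, add_mul]
    rw [h1, ← hP0, aeval_def, eval₂_eq]
    apply Finset.sum_congr rfl
    intro m hm
    rw [aeval_monomial, mul_assoc]
    congr 1
    -- split the product
    have h2 : ∏ x ∈ m.support, Sum.elim t l x ^ m x =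
        ∏ x ∈ (Finset.univ.map ⟨Sum.inl, Sum.inl_injective⟩ ∪
          ((o m).toFinset.map ⟨Sum.inr, Sum.inr_injective⟩) : Finset (Fin n ⊕ ι)),
          Sum.elim t l x ^ m x := by
      apply Finset.prod_subset
      · intro x hx
        rw [Finset.mem_union]
        cases x with
        | inl i => left; simp
        | inr s =>
          right
          have h3 := Finsupp.mem_support_iff.mp hx
          rw [(ho m hm).1 s] at h3
          have h4 : o m = some s := by
            by_contra h5
            rw [if_neg h5] at h3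
            exact h3 rfl
          simp [h4]
      · intro x _ hx
        rw [Finsupp.notMem_support_iff.mp hx, pow_zero]
    rw [h2, Finset.prod_union]
    · congr 1
      · rw [Finset.prod_map, Finsupp.prod_fintype _ _ (fun i => pow_zero _)]
        rfl
      · rw [Finset.prod_map]
        have h3 := (ho m hm).1
        cases hom : o m with
        | none => simp
        | some s =>
          rw [hom] at h3
          have h4 := h3 s
          rw [if_pos rfl] at h4
          simp [h4]
    · rw [Finset.disjoint_left]
      intro x hx hx'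
      obtain ⟨i, _, hi⟩ := Finset.mem_map.mp hx
      obtain ⟨s, _, hs⟩ := Finset.mem_map.mp hx'
      rw [← hi] at hs
      exact Sum.inr_ne_inl hs

end Pool.Agent.W254.Ab
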