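import Pool.Agent.W254.PA.Transfer

/-!
# The product inequality for a space with the hyperplane property
-/

set_option autoImplicit false

namespace Pool.Agent.W254.Ab

open Module Finset
open Pool.Agent.W254.PA (Hyp)

/-- the algebraic numbers of a field -/
noncomputable abbrev QA (Ω : Type*) [Field Ω] [CharZero Ω] : IntermediateField ℚ Ω :=
  algebraicClosure ℚ Ω

theorem mem_QA {Ω : Type*} [Field Ω] [CharZero Ω] {z : Ω} : z ∈ QA Ω ↔ IsAlgebraic ℚ z :=
  mem_algebraicClosure_iff

variable {Ω : Type*} [Field Ω] [CharZero Ω] {V : Submodule (QA Ω) Ω} (hV : Hyp V)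

include hV in
/-- **Product inequality.** For finite dimensional spaces `X ⊆ Ω`, `W ⊆ V` over the algebraic
numbers, `dim X * dim W ≤ dim (X W) + dim X (dim X - 1)`. -/
theorem product_le (X W Y : Submodule (QA Ω) Ω) [FiniteDimensional (QA Ω) X] [FiniteDimensional (QA Ω) W]
    [FiniteDimensional (QA Ω) Y] (hW : W ≤ V) (hY : ∀ x ∈ X, ∀ w ∈ W, x * w ∈ Y) :
    finrank (QA Ω) X * finrank (QA Ω) W ≤ finrank (QA Ω) Y + finrank (QA Ω) X * (finrank (QA Ω) X - 1) := by
  classical
  set h := finrank (QA Ω) X with hh
  set r := finrank (QA Ω) W with hr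
  let x : Fin h → Ω := fun i => ((Module.finBasis (QA Ω) X i : X) : Ω)
  let w : Fin r → Ω := fun j => ((Module.finBasis (QA Ω) W j : W) : Ω)
  have hxm : ∀ i, x i ∈ X := fun i => (Module.finBasis (QA Ω) X i).2
  have hwm : ∀ j, w j ∈ W := fun j => (Module.finBasis (QA Ω) W j).2
  have hx : LinearIndependent (QA Ω) x :=
    (Module.finBasis (QA Ω) X).linearIndependent.map' X.subtype X.ker_subtype
  have hw : LinearIndependent (QA Ω) w :=
    (Module.finBasis (QA Ω) W).linearIndependent.map' W.subtype W.ker_subtype
  let φ : (Fin h × Fin r → (QA Ω)) →ₗ[(QA Ω)] Y :=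
    { toFun := fun c => ⟨∑ p, c p • (x p.1 * w p.2), by
        apply Submodule.sum_mem
        intro p _
        exact Y.smul_mem _ (hY _ (hxm _) _ (hwm _))⟩
      map_add' := by
        intro a b
        apply Subtype.ext
        simp only [Pi.add_apply, add_smul, Finset.sum_add_distrib, Submodule.coe_add]
      map_smul' := by
        intro c a
        apply Subtype.ext
        simp only [Pi.smul_apply, smul_eq_mul, mul_smul, Finset.smul_sum, RingHom.id_apply,
          Submodule.coe_smul] }
  have hφ : ∀ c, ((φ c : Y) : Ω) = ∑ p, c p • (x p.1 * w p.2) := fun c => rfl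
  have h1 := LinearMap.finrank_range_add_finrank_ker φ
  rw [Module.finrank_fintype_fun_eq_card, Fintype.card_prod, Fintype.card_fin, Fintype.card_fin]
    at h1
  have h2 : finrank (QA Ω) (LinearMap.range φ) ≤ finrank (QA Ω) Y := Submodule.finrank_le _
  have h3 : finrank (QA Ω) (LinearMap.ker φ) ≤ h * (h - 1) := by
    let B := Module.finBasis (QA Ω) (LinearMap.ker φ)
    refine hV h _ x (fun i m => ∑ j, (B m : Fin h × Fin r → (QA Ω)) (i, j) • w j) hx ?_ ?_ ?_
    · intro i m
      apply Submodule.sum_mem
      intro j _
      exact V.smul_mem _ (hW (hwm j))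
    · intro m
      have h4 : ((φ (B m : Fin h × Fin r → (QA Ω)) : Y) : Ω) = 0 := by
        have := (B m).2
        rw [LinearMap.mem_ker] at this
        rw [this]; rfl
      rw [hφ, Fintype.sum_prod_type] at h4
      rw [← h4]
      apply Finset.sum_congr rfl
      intro i _
      rw [Finset.mul_sum]
      apply Finset.sum_congr rfl
      intro j _
      rw [mul_smul_comm]
    · rw [Fintype.linearIndependent_iff]
      intro b hb
      have h5 : ∀ i j, ∑ m, b m * (B m : Fin h × Fin r → (QA Ω)) (i, j) = 0 := by
        intro i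
        have h6 := congrFun hb i
        rw [Finset.sum_apply] at h6
        simp only [Pi.smul_apply, Pi.zero_apply, Finset.smul_sum, smul_smul] at h6
        rw [Finset.sum_comm] at h6
        simp only [← Finset.sum_smul] at h6
        exact Fintype.linearIndependent_iff.mp hw _ h6
      have h7 : ∑ m, b m • B m = 0 := by
        apply Subtype.ext
        rw [Submodule.coe_sum]
        funext p
        obtain ⟨i, j⟩ := p
        rw [Finset.sum_apply]
        exact h5 i j
      exact Fintype.linearIndependent_iff.mp B.linearIndependent b h7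
  omega

end Pool.Agent.W254.Ab
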