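import Mathlib

/-!
# Doubly transitive permutation groups and linear relations
-/

set_option autoImplicit false

namespace Pool.Agent.W254.Ab

open Finset

variable {T : Type*} [Fintype T] [DecidableEq T] {Ω : Type*} [Field Ω] [CharZero Ω]
  {E : Type*} [AddCommGroup E] [Module Ω E]

/-- Let `P` be a doubly transitive group of permutations of `T` which preserves the linear relations
of a family `u` with sum zero.  If `u` is not zero, the coefficients of every relation are
constant. -/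
theorem two_trans (u : T → E) (hsum : ∑ τ, u τ = 0) (P : Subgroup (Equiv.Perm T))
    (h2 : ∀ τ₁ τ₂ τ₁' τ₂' : T, τ₁ ≠ τ₂ → τ₁' ≠ τ₂' → ∃ π ∈ P, π τ₁ = τ₁' ∧ π τ₂ = τ₂')
    (hstab : ∀ π ∈ P, ∀ c : T → Ω, ∑ τ, c τ • u τ = 0 → ∑ τ, c τ • u (π τ) = 0)
    (hu : u ≠ 0) (c : T → Ω) (hc : ∑ τ, c τ • u τ = 0) : ∃ κ, ∀ τ, c τ = κ := by
  classical
  -- all members are nonzero
  have hne : ∀ τ, u τ ≠ 0 := by
    intro τ hτ
    apply hu
    funext τ'
    by_cases h : τ' = τ
    · rw [h, hτ]; rfl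
    · obtain ⟨π, hπ, h3, -⟩ := h2 τ τ' τ' τ (Ne.symm h) h
      have h4 := hstab π hπ (fun x => if x = τ then 1 else 0) (by
        rw [Finset.sum_eq_single τ]
        · rw [if_pos rfl, one_smul, hτ]
        · intro b _ hb; rw [if_neg hb, zero_smul]
        · intro h; exact absurd (Finset.mem_univ τ) h)
      rw [Finset.sum_eq_single τ] at h4
      · rw [if_pos rfl, one_smul, h3] at h4
        exact h4
      · intro b _ hb; rw [if_neg hb, zero_smul]
      · intro h; exact absurd (Finset.mem_univ τ) h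
  -- the averaging
  have key : ∀ τ₀ : T, ((Fintype.card T : Ω) - 1) * c τ₀ = ∑ τ ∈ univ.erase τ₀, c τ := by
    intro τ₀
    let S : Finset (Equiv.Perm T) := univ.filter (fun π => π ∈ P ∧ π τ₀ = τ₀)
    have hS1 : (1 : Equiv.Perm T) ∈ S := by
      simp only [S, Finset.mem_filter, Finset.mem_univ, true_and]
      exact ⟨P.one_mem, rfl⟩
    have hScard : (S.card : Ω) ≠ 0 := by
      have : 0 < S.card := Finset.card_pos.mpr ⟨1, hS1⟩
      exact_mod_cast this.ne'
    have hSmem : ∀ π, π ∈ S ↔ π ∈ P ∧ π τ₀ = τ₀ := by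
      intro π; simp [S]
    -- the orbit sums
    have hM : ∀ τ τ' : T, τ ≠ τ₀ → τ' ≠ τ₀ → ∑ π ∈ S, u (π τ') = ∑ π ∈ S, u (π τ) := by
      intro τ τ' h h'
      obtain ⟨ρ, hρ, h3, h4⟩ := h2 τ₀ τ τ₀ τ' (Ne.symm h) (Ne.symm h')
      refine Finset.sum_bij' (fun π _ => π * ρ) (fun π _ => π * ρ⁻¹) ?_ ?_ ?_ ?_ ?_
      · intro π hπ
        rw [hSmem] at hπ ⊢
        exact ⟨P.mul_mem hπ.1 hρ, by rw [Equiv.Perm.mul_apply, h3, hπ.2]⟩
      · intro π hπ
        rw [hSmem] at hπ ⊢
        refine ⟨P.mul_mem hπ.1 (P.inv_mem hρ), ?_⟩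
        have : ρ⁻¹ τ₀ = τ₀ := by rw [Equiv.Perm.inv_eq_iff_eq, h3]
        rw [Equiv.Perm.mul_apply, this, hπ.2]
      · intro π _; rw [mul_inv_cancel_right]
      · intro π _; rw [inv_mul_cancel_right]
      · intro π _
        rw [Equiv.Perm.mul_apply, h4]
    by_cases hcard : ∃ τ₁ : T, τ₁ ≠ τ₀
    · obtain ⟨τ₁, hτ₁⟩ := hcard
      set M := ∑ π ∈ S, u (π τ₁) with hMdef
      have h5 : ∀ τ ∈ univ.erase τ₀, ∑ π ∈ S, u (π τ) = M := by
        intro τ hτ
        exact hM τ₁ τ hτ₁ (Finset.ne_of_mem_erase hτ)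
      have h6 : ∑ π ∈ S, u (π τ₀) = (S.card : Ω) • u τ₀ := by
        rw [Finset.sum_congr rfl (fun π hπ => by rw [((hSmem π).mp hπ).2])]
        rw [Finset.sum_const, Nat.cast_smul_eq_nsmul]
      -- the sum of all orbit sums
      have h7 : ∑ τ, ∑ π ∈ S, u (π τ) = 0 := by
        rw [Finset.sum_comm]
        apply Finset.sum_eq_zero
        intro π _
        rw [Equiv.sum_comp π u, hsum]
      rw [← Finset.add_sum_erase _ _ (Finset.mem_univ τ₀), h6, Finset.sum_congr rfl h5,
        Finset.sum_const, Finset.card_erase_of_mem (Finset.mem_univ _), Finset.card_univ] at h7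
      -- the averaged relation
      have h8 : ∑ τ, c τ • ∑ π ∈ S, u (π τ) = 0 := by
        simp only [Finset.smul_sum]
        rw [Finset.sum_comm]
        apply Finset.sum_eq_zero
        intro π hπ
        exact hstab π ((hSmem π).mp hπ).1 c hc
      rw [← Finset.add_sum_erase _ _ (Finset.mem_univ τ₀), h6,
        Finset.sum_congr rfl (fun τ hτ => by rw [h5 τ hτ])] at h8
      rw [← Finset.sum_smul] at h8
      have hd : ((Fintype.card T - 1 : ℕ) : Ω) = (Fintype.card T : Ω) - 1 := by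
        rw [Nat.cast_sub (Fintype.card_pos_iff.mpr ⟨τ₀⟩), Nat.cast_one]
      rw [← Nat.cast_smul_eq_nsmul Ω, hd] at h7
      -- eliminate M
      have h9 : ((Fintype.card T : Ω) - 1) • (c τ₀ • (S.card : Ω) • u τ₀) +
          (∑ τ ∈ univ.erase τ₀, c τ) • (((Fintype.card T : Ω) - 1) • M) = 0 := by
        have h10 := congrArg (fun z => ((Fintype.card T : Ω) - 1) • z) h8
        simp only [smul_add, smul_zero] at h10
        rw [← h10, smul_comm (∑ τ ∈ univ.erase τ₀, c τ) ((Fintype.card T : Ω) - 1) M]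
      have h11 : ((Fintype.card T : Ω) - 1) • M = -((S.card : Ω) • u τ₀) := by
        exact (neg_eq_of_add_eq_zero_right h7).symm
      rw [h11, smul_neg, smul_smul, smul_smul, smul_smul, ← sub_eq_add_neg, ← sub_smul] at h9
      have h12 := (smul_eq_zero.mp h9).resolve_right (hne τ₀)
      have h13 : (((Fintype.card T : Ω) - 1) * c τ₀ - ∑ τ ∈ univ.erase τ₀, c τ) * (S.card : Ω) = 0 := by
        rw [← h12]; ring
      exact sub_eq_zero.mp ((mul_eq_zero.mp h13).resolve_right hScard)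
    · push Not at hcard
      have h5 : univ.erase τ₀ = (∅ : Finset T) := by
        ext x
        simp [hcard x]
      have h6 : Fintype.card T = 1 := by
        rw [Fintype.card_eq_one_iff]
        exact ⟨τ₀, hcard⟩
      rw [h5, h6, Finset.sum_empty]
      simp
  rcases isEmpty_or_nonempty T with hT | ⟨⟨τ₀⟩⟩
  · exact ⟨0, fun τ => (hT.false τ).elim⟩
  · have h14 : ∀ τ, (Fintype.card T : Ω) * c τ = ∑ τ', c τ' := by
      intro τ
      rw [← Finset.add_sum_erase _ _ (Finset.mem_univ τ), ← key τ]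
      ring
    have h15 : (Fintype.card T : Ω) ≠ 0 := by
      have : 0 < Fintype.card T := Fintype.card_pos_iff.mpr ⟨τ₀⟩
      exact_mod_cast this.ne'
    refine ⟨(∑ τ', c τ') / (Fintype.card T : Ω), fun τ => ?_⟩
    rw [eq_div_iff h15, mul_comm]
    exact h14 τ

/-- existence of linear functionals with prescribed values -/
theorem exists_func_val {J M : Type*} [Fintype J] [AddCommGroup M] [Module ℚ M] (x : J → M)
    (y : J → ℚ) (h : ∀ z : J → ℚ, ∑ j, z j • x j = 0 → ∑ j, z j * y j = 0) :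
    ∃ φ : M →ₗ[ℚ] ℚ, ∀ j, φ (x j) = y j := by
  classical
  let X := Fintype.linearCombination ℚ x
  let Y := Fintype.linearCombination ℚ y
  obtain ⟨s, hs⟩ := X.rangeRestrict.exists_rightInverse_of_surjective X.range_rangeRestrict
  obtain ⟨φ, hφ⟩ := LinearMap.exists_extend (Y.comp s)
  refine ⟨φ, fun j => ?_⟩
  have h1 : x j ∈ LinearMap.range X := ⟨Pi.single j 1, by simp [X, Fintype.linearCombination_apply_single]⟩
  have h2 : φ (x j) = Y (s ⟨x j, h1⟩) := LinearMap.congr_fun hφ ⟨x j, h1⟩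
  have h3 : X (s ⟨x j, h1⟩) = x j := by
    have := LinearMap.congr_fun hs ⟨x j, h1⟩
    exact congrArg Subtype.val this
  have h4 : X (s ⟨x j, h1⟩ - Pi.single j 1) = 0 := by
    rw [map_sub, h3]
    simp [X, Fintype.linearCombination_apply_single]
  have h5 := h (s ⟨x j, h1⟩ - Pi.single j 1) (by
    rw [Fintype.linearCombination_apply] at h4
    exact h4)
  have h6 : Y (s ⟨x j, h1⟩ - Pi.single j 1) = 0 := by
    rw [Fintype.linearCombination_apply]
    simpa only [smul_eq_mul] using h5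
  rw [map_sub, sub_eq_zero] at h6
  rw [h2, h6]
  simp [Y, Fintype.linearCombination_apply_single]

end Pool.Agent.W254.Ab
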