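import Pool.Agent.W254.Ab.Rel
import Pool.Agent.W256.Growth

/-!
# Truncation by evaluation at points (after helper256)
-/

set_option autoImplicit false

namespace Pool.Agent.W254.Ab

open Module Finset
open Pool.Agent.W254.PA (Hyp)

/-- **Truncation.** In every finite dimensional `B` there is a subspace `Y` of given dimension `s`
such that `dim (Y A)` is at most `dim (B A) - (dim B - s)`. -/
theorem exists_trunc {K L : Type*} [Field K] [Field L] [Algebra K L] [IsAlgClosed K]
    (B A : Submodule K L) [FiniteDimensional K B] [FiniteDimensional K A]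
    (hA : A ≠ ⊥) (s : ℕ) (hs : s ≤ finrank K B) :
    ∃ Y : Submodule K L, Y ≤ B ∧ finrank K Y = s ∧
      finrank K (Y * A : Submodule K L) + finrank K B ≤ finrank K (B * A : Submodule K L) + s := by
  obtain ⟨u, huV, hu⟩ := Submodule.exists_mem_ne_zero_of_ne_bot hA
  set R := Algebra.adjoin K ((B : Set L) ∪ A) with hR
  have hXR : ∀ x ∈ B, x ∈ R := fun x hx => Algebra.subset_adjoin (Or.inl hx)
  have hVR : ∀ x ∈ A, x ∈ R := fun x hx => Algebra.subset_adjoin (Or.inr hx)
  obtain ⟨e, he, heu, hes⟩ := Pool.Agent.W256.exists_eval R (Pool.Agent.W256.fg_adjoin B A) u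
    (hVR u huV) hu B hXR (finrank K B - s) (Nat.sub_le _ _)
  have : FiniteDimensional K (B * A : Submodule K L) :=
    Module.Finite.iff_fg.mpr (Submodule.FG.mul (Module.Finite.iff_fg.mp inferInstance)
      (Module.Finite.iff_fg.mp inferInstance))
  have hXV : Function.Surjective (e.comp (B * A : Submodule K L).subtype) := by
    intro v
    obtain ⟨x, hx⟩ := hes (fun i => (e u i)⁻¹ * v i)
    have hx' : e x = fun i => (e u i)⁻¹ * v i := hx
    refine ⟨⟨x * u, Submodule.mul_mem_mul x.2 huV⟩, ?_⟩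
    change e (x * u) = v
    rw [he x (hXR x x.2) u (hVR u huV), hx']
    funext i
    rw [Pi.mul_apply]
    field_simp [heu i]
  have k1 := Pool.Agent.W256.finrank_inf_ker e B B le_rfl hes
  have k2 := Pool.Agent.W256.finrank_inf_ker e (B * A) (B * A) le_rfl hXV
  have k4 : (B ⊓ LinearMap.ker e) * A ≤ (B * A) ⊓ LinearMap.ker e := by
    refine le_inf (mul_le_mul' inf_le_left le_rfl) ?_
    rw [Submodule.mul_le]
    intro y hy v hv
    have hy2 : e y = 0 := hy.2
    rw [LinearMap.mem_ker, he y (hXR y hy.1) v (hVR v hv), hy2, zero_mul]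
  have : FiniteDimensional K ((B * A) ⊓ LinearMap.ker e : Submodule K L) :=
    Submodule.finiteDimensional_inf_left _ _
  have k5 := Submodule.finrank_mono k4
  refine ⟨B ⊓ LinearMap.ker e, inf_le_left, by omega, by omega⟩

variable {Ω : Type*} [Field Ω] [CharZero Ω] [IsAlgClosed Ω] {V : Submodule (QA Ω) Ω}
  (hV : Hyp V)

include hV in
/-- **Rank bound for relations, truncated form.** -/
theorem rel_trunc {ι : Type*} (w : ι → Ω) (hw : LinearIndependent (QA Ω) w) (hL : ∀ i, w i ∈ V)
    (A B : Submodule (QA Ω) Ω) [FiniteDimensional (QA Ω) A] [FiniteDimensional (QA Ω) B]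
    (hA : A ≠ ⊥) (m : ℕ) (f : Fin m → (ι →₀ Ω))
    (hf : LinearIndependent Ω f) (hfA : ∀ i s, f i s ∈ A)
    (hf0 : ∀ i, (f i).sum (fun s c => c * w s) = 0) (s δ : ℕ) (hs : s ≤ finrank (QA Ω) B)
    (hδ : finrank (QA Ω) (B * A : Submodule (QA Ω) Ω) ≤ finrank (QA Ω) B + δ) :
    m * s ≤ (δ + s) * (δ + s - 1) := by
  haveI : IsAlgClosed (QA Ω) := (algebraicClosure.isAlgClosure ℚ Ω).isAlgClosed
  obtain ⟨Y, -, hY, hYA⟩ := exists_trunc B A hA s hs
  rcases Nat.eq_zero_or_pos s with h0 | h0
  · rw [h0]; omega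
  have hYf : FiniteDimensional (QA Ω) Y := by
    apply FiniteDimensional.of_finrank_pos
    omega
  have hYAf : FiniteDimensional (QA Ω) (Y * A : Submodule (QA Ω) Ω) :=
    Module.Finite.iff_fg.mpr (Submodule.FG.mul (Module.Finite.iff_fg.mp hYf)
      (Module.Finite.iff_fg.mp inferInstance))
  have h1 := rel_core hV w hw hL A Y (Y * A)
    (fun b hb a ha => Submodule.mul_mem_mul hb ha) m f hf hfA hf0
  rw [hY] at h1
  have h2 : finrank (QA Ω) (Y * A : Submodule (QA Ω) Ω) ≤ δ + s := by omega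
  exact h1.trans (Nat.mul_le_mul h2 (by omega))

end Pool.Agent.W254.Ab
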